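import Pool.Agent.AT5.Stmts2
import Pool.Agent.Helper35_K9.CHQ
import Pool.Agent.Helper97_K9.NZA

/-!
# Squad AT5, row QTP: good subgroups of the blocks of `N(Q)/Q`
-/

open scoped BigOperators

noncomputable section

namespace Pool.Agent.PP.T5.H62

open Pool.Agent.Helper51_AWC Pool.Agent.Helper79_WRA Pool.Agent.PP Pool.Agent.PP.KF
open Pool.Agent.PP.K9 Pool.Agent.PP.K9.H97 Pool.Agent.PP.H75 Pool.Agent.PP.T3 Pool.Agent.PP.T2

attribute [local instance] Ideal.Quotient.field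

theorem qtp (hpug : K9.PugStmt) (hfmg : K9.FmgStmt) : QtpStmt := by
  intro ℓ hℓ M _ hM G _ _ e V he hTp Q hQ A _ _ p hp hk f₁ hf₁ hff₁ V' hV' hg
  have hF : GoodF ℓ (FF M) := H50.fld ℓ Fact.out M hM
  have hfid : IsIdem (fun t : Subgroup.normalizer (Q : Set G) => br Q e t) :=
    (H20.brm ℓ (FF M) hF G Q (Subgroup.normalizer (Q : Set G)) hQ
      (Subgroup.centralizer_le_normalizer _) le_rfl).2.2 e he.1
  have hkp : IsPGroup ℓ p.ker := by
    rw [hk]
    exact hQ.comap_subtype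
  have hgp : Gd (push p (fun t : Subgroup.normalizer (Q : Set G) => br Q e t)) V' :=
    gd_of_mul hF (push_isIdem hp hfid).1 hf₁.1.1 hff₁ hV' hg
  have h1 : p.ker ≤ V'.comap p := by
    intro x hx
    rw [MonoidHom.mem_ker] at hx
    rw [Subgroup.mem_comap, hx]
    exact V'.one_mem
  have h2 : IsPGroup ℓ (V'.comap p) := (PP.H75.isPGroup_comap_iff hp hkp V').2 hV'
  have h3 := (hpug ℓ (FF M) hF _ A p hp hkp _ hfid (V'.comap p) h1 h2).2 (by
    rw [Subgroup.map_comap_eq_self_of_surjective hp]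
    exact hgp)
  obtain ⟨x, hx, hx2⟩ := h3
  have h4 : Gd e (K9.H35.up p V') := by
    refine ⟨(x : G), ?_, ?_⟩
    · rw [Subgroup.mem_centralizer_iff]
      rintro _ ⟨y, hy, rfl⟩
      exact congrArg Subtype.val (Subgroup.mem_centralizer_iff.1 hx y hy)
    · intro h0
      apply hx2
      by_cases hc : (x : G) ∈ Subgroup.centralizer (Q : Set G)
      · change br Q e x = 0
        rw [H66.br_of_mem hc, h0]
      · exact H66.br_of_not_mem hc
  obtain ⟨g, hg⟩ := (hfmg ℓ M hM G e he V hTp).1 (K9.H35.up p V') (h2.map _) h4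
  refine ⟨K9.H35.up p V', g, ?_, K9.H35.up_le p V', hg, ?_⟩
  · intro y hy
    have hyN : y ∈ Subgroup.normalizer (Q : Set G) := Subgroup.le_normalizer hy
    rw [K9.H35.mem_up]
    refine ⟨hyN, ?_⟩
    have h5 : (⟨y, hyN⟩ : Subgroup.normalizer (Q : Set G)) ∈ p.ker := by
      rw [hk, Subgroup.mem_subgroupOf]
      exact hy
    rw [MonoidHom.mem_ker.1 h5]
    exact V'.one_mem
  · rw [K9.H35.up_subgroupOf, Subgroup.map_comap_eq_self_of_surjective hp]

end Pool.Agent.PP.T5.H62
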